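import Pool.Agent.N684.BK.Stm

/-!
Project BK: linear algebra of evaluations and counting.
-/

set_option autoImplicit false

open MvPolynomial

namespace Pool.Agent.N684.BK

section
variable {F : Type} [Field F] {N : ℕ}

theorem wd_finite (wt : Fin N → ℕ) (hwt : ∀ i, 1 ≤ wt i) (K : ℕ) :
    {m : Fin N →₀ ℕ | wd wt m ≤ K}.Finite := by
  have h1 : ((fun m : Fin N →₀ ℕ => (m : Fin N → ℕ)) ⁻¹' (Set.Iic (fun _ => K))).Finite :=
    (Set.finite_Iic _).preimage (fun a _ b _ h => DFunLike.coe_injective h)
  refine h1.subset ?_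
  intro m hm i
  have h2 : wt i * m i ≤ wd wt m :=
    Finset.single_le_sum (f := fun i => wt i * m i) (fun _ _ => Nat.zero_le _) (Finset.mem_univ i)
  have h3 : m i ≤ wt i * m i := Nat.le_mul_of_pos_left _ (hwt i)
  have h4 : wd wt m ≤ K := hm
  show m i ≤ K
  omega

theorem PW_finite (wt : Fin N → ℕ) (hwt : ∀ i, 1 ≤ wt i) (K : ℕ) :
    Module.Finite F (PW F wt K) := by
  have : Finite {m : Fin N →₀ ℕ | wd wt m ≤ K} := wd_finite wt hwt K
  exact Module.Finite.of_basis (basisRestrictSupport F {m : Fin N →₀ ℕ | wd wt m ≤ K})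

theorem mem_PW {wt : Fin N → ℕ} {K : ℕ} {f : MvPolynomial (Fin N) F} :
    f ∈ PW F wt K ↔ ∀ m ∈ f.support, wd wt m ≤ K := by
  unfold PW
  rw [mem_restrictSupport_iff]
  exact ⟨fun h m hm => h hm, fun h m hm => h m hm⟩

theorem PW_mono {wt : Fin N → ℕ} {K L : ℕ} (h : K ≤ L) : PW F wt K ≤ PW F wt L := by
  intro f hf
  rw [mem_PW] at hf ⊢
  exact fun m hm => (hf m hm).trans h

theorem one_mem_PW (wt : Fin N → ℕ) (K : ℕ) : (1 : MvPolynomial (Fin N) F) ∈ PW F wt K := by
  rw [mem_PW]
  intro m hm
  have : m = 0 := by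
    by_contra h
    rw [mem_support_iff, coeff_one, if_neg (Ne.symm h)] at hm
    exact hm rfl
  rw [this]
  simp [wd]

theorem X_mem_PW (wt : Fin N → ℕ) (K : ℕ) (a : Fin N) (h : wt a ≤ K) :
    (X a : MvPolynomial (Fin N) F) ∈ PW F wt K := by
  classical
  rw [mem_PW]
  intro m hm
  have hm' : m = Finsupp.single a 1 := by
    by_contra h
    rw [mem_support_iff, coeff_X, if_neg (Ne.symm h)] at hm
    exact hm rfl
  rw [hm']
  unfold wd
  rw [Finset.sum_eq_single a]
  · simpa using h
  · intro b _ hb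
    rw [Finsupp.single_eq_of_ne hb]
    simp
  · simp

theorem XX_mem_PW (wt : Fin N → ℕ) (K : ℕ) (a b : Fin N) (h : wt a + wt b ≤ K) :
    (X a * X b : MvPolynomial (Fin N) F) ∈ PW F wt K := by
  classical
  rw [mem_PW]
  intro m hm
  have he : (X a * X b : MvPolynomial (Fin N) F) =
      monomial (Finsupp.single a 1 + Finsupp.single b 1) 1 := by
    rw [← one_mul (1 : F), ← monomial_mul]
    rfl
  have hm' : m = Finsupp.single a 1 + Finsupp.single b 1 := by
    by_contra h
    rw [he, mem_support_iff, coeff_monomial, if_neg (Ne.symm h)] at hm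
    exact hm rfl
  have hw : ∀ c : Fin N, wd wt (Finsupp.single c 1) = wt c := by
    intro c
    unfold wd
    rw [Finset.sum_eq_single c]
    · simp
    · intro b _ hb
      rw [Finsupp.single_eq_of_ne hb]
      simp
    · simp
  have hadd : wd wt (Finsupp.single a 1 + Finsupp.single b 1) =
      wd wt (Finsupp.single a 1) + wd wt (Finsupp.single b 1) := by
    unfold wd
    rw [← Finset.sum_add_distrib]
    refine Finset.sum_congr rfl fun i _ => ?_
    rw [Finsupp.add_apply]
    ring
  rw [hm', hadd, hw, hw]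
  exact h

/-- the evaluation map -/
noncomputable def evL {ι : Type} (W : Submodule F (MvPolynomial (Fin N) F))
    (A : ι → Fin N → F) : W →ₗ[F] (ι → F) :=
  LinearMap.pi fun i => (MvPolynomial.aeval (A i)).toLinearMap ∘ₗ W.subtype

theorem evL_apply {ι : Type} (W : Submodule F (MvPolynomial (Fin N) F))
    (A : ι → Fin N → F) (w : W) (i : ι) :
    evL W A w i = eval (A i) (w : MvPolynomial (Fin N) F) := by
  show (MvPolynomial.aeval (A i)) (w : MvPolynomial (Fin N) F) = _
  rw [MvPolynomial.aeval_eq_eval]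

theorem Ind.surj {ι : Type} {W : Submodule F (MvPolynomial (Fin N) F)} {A : ι → Fin N → F}
    (h : Ind W A) : Function.Surjective (evL W A) := by
  intro v
  obtain ⟨w, hw⟩ := h v
  refine ⟨w, ?_⟩
  funext i
  rw [evL_apply]
  exact congrFun hw i

theorem Ind.mono {ι : Type} {W W' : Submodule F (MvPolynomial (Fin N) F)} {A : ι → Fin N → F}
    (h : Ind W A) (hW : W ≤ W') : Ind W' A := by
  intro v
  obtain ⟨w, hw⟩ := h v
  exact ⟨⟨w.1, hW w.2⟩, hw⟩

/-- the members of `W` vanishing at the points -/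
noncomputable def van {ι : Type} (W : Submodule F (MvPolynomial (Fin N) F))
    (A : ι → Fin N → F) : Submodule F (MvPolynomial (Fin N) F) :=
  (LinearMap.ker (evL W A)).map W.subtype

theorem mem_van {ι : Type} {W : Submodule F (MvPolynomial (Fin N) F)} {A : ι → Fin N → F}
    {f : MvPolynomial (Fin N) F} : f ∈ van W A ↔ f ∈ W ∧ ∀ i, eval (A i) f = 0 := by
  unfold van
  rw [Submodule.mem_map]
  constructor
  · rintro ⟨w, hw, rfl⟩
    refine ⟨w.2, fun i => ?_⟩
    have := congrFun (LinearMap.mem_ker.1 hw) i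
    rw [evL_apply] at this
    exact this
  · rintro ⟨h1, h2⟩
    refine ⟨⟨f, h1⟩, ?_, rfl⟩
    rw [LinearMap.mem_ker]
    funext i
    rw [evL_apply]
    exact h2 i

theorem van_le {ι : Type} (W : Submodule F (MvPolynomial (Fin N) F)) (A : ι → Fin N → F) :
    van W A ≤ W := fun _ h => (mem_van.1 h).1

theorem finrank_van {ι : Type} [Fintype ι] {W : Submodule F (MvPolynomial (Fin N) F)}
    [Module.Finite F W] {A : ι → Fin N → F} (h : Ind W A) :
    Module.finrank F (van W A) + Fintype.card ι = Module.finrank F W := by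
  have h1 := LinearMap.finrank_range_add_finrank_ker (evL W A)
  rw [LinearMap.range_eq_top.2 h.surj, finrank_top, Module.finrank_fintype_fun_eq_card] at h1
  have h2 : Module.finrank F (van W A) = Module.finrank F (LinearMap.ker (evL W A)) := by
    unfold van
    exact (Submodule.equivMapOfInjective W.subtype W.injective_subtype
      (LinearMap.ker (evL W A))).finrank_eq.symm
  omega

theorem card_sub [Fintype F] (W : Submodule F (MvPolynomial (Fin N) F)) [Module.Finite F W] :
    Nat.card W = Fintype.card F ^ Module.finrank F W := by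
  rw [Module.natCard_eq_pow_finrank (K := F), Nat.card_eq_fintype_card]

theorem finite_sub [Fintype F] (W : Submodule F (MvPolynomial (Fin N) F)) [Module.Finite F W] :
    Finite W := Module.finite_of_finite F

theorem van_finite {ι : Type} (W : Submodule F (MvPolynomial (Fin N) F)) [Module.Finite F W]
    (A : ι → Fin N → F) : Module.Finite F (van W A) :=
  Submodule.finiteDimensional_of_le (van_le W A)

theorem card_van [Fintype F] {ι : Type} [Fintype ι] {W : Submodule F (MvPolynomial (Fin N) F)}
    [Module.Finite F W] {A : ι → Fin N → F} (h : Ind W A) :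
    Nat.card (van W A) * Fintype.card F ^ Fintype.card ι = Nat.card W := by
  have := van_finite W A
  rw [card_sub, card_sub, ← pow_add, finrank_van h]

/-- two families of polynomials vanishing at the points -/
theorem card_pair [Fintype F] {ι : Type} [Fintype ι] {e k : ℕ}
    {W H : Submodule F (MvPolynomial (Fin N) F)}
    [Module.Finite F W] [Module.Finite F H] {A : ι → Fin N → F} (h : Ind W A) (hWH : W ≤ H) :
    Nat.card {z : (Fin e → W) × (Fin k → H) // ∀ i : ι,
      (∀ a, eval (A i) (z.1 a : MvPolynomial (Fin N) F) = 0) ∧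
      (∀ a, eval (A i) (z.2 a : MvPolynomial (Fin N) F) = 0)} *
      Fintype.card F ^ (Fintype.card ι * (e + k)) = Nat.card ((Fin e → W) × (Fin k → H)) := by
  have e1 : {z : (Fin e → W) × (Fin k → H) // ∀ i : ι,
      (∀ a, eval (A i) (z.1 a : MvPolynomial (Fin N) F) = 0) ∧
      (∀ a, eval (A i) (z.2 a : MvPolynomial (Fin N) F) = 0)} ≃
      (Fin e → van W A) × (Fin k → van H A) :=
    { toFun := fun z => (fun a => ⟨z.1.1 a, mem_van.2 ⟨(z.1.1 a).2, fun i => (z.2 i).1 a⟩⟩,
        fun a => ⟨z.1.2 a, mem_van.2 ⟨(z.1.2 a).2, fun i => (z.2 i).2 a⟩⟩)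
      invFun := fun z => ⟨(fun a => ⟨z.1 a, (mem_van.1 (z.1 a).2).1⟩,
        fun a => ⟨z.2 a, (mem_van.1 (z.2 a).2).1⟩), fun i =>
        ⟨fun a => (mem_van.1 (z.1 a).2).2 i, fun a => (mem_van.1 (z.2 a).2).2 i⟩⟩
      left_inv := fun z => rfl
      right_inv := fun z => rfl }
  rw [Nat.card_congr e1, Nat.card_prod, Nat.card_prod, Nat.card_fun, Nat.card_fun, Nat.card_fun,
    Nat.card_fun, ← card_van h, ← card_van (h.mono hWH), Nat.card_eq_fintype_card (α := Fin e),
    Nat.card_eq_fintype_card (α := Fin k), Fintype.card_fin, Fintype.card_fin, mul_add, pow_add,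
    mul_pow, mul_pow, ← pow_mul, ← pow_mul]
  ring

end

/-- the fibres of a surjective linear map have the same size -/
theorem card_fib {F : Type} [Field F] {Z M M' : Type} [Finite Z] [AddCommGroup M] [Module F M]
    [AddCommGroup M'] [Module F M'] [Finite M] (φ : M →ₗ[F] M') (hφ : Function.Surjective φ)
    (p : Z → M' → Prop) :
    Nat.card {z : Z × M // p z.1 (φ z.2)} * Nat.card M' =
      Nat.card {z : Z × M' // p z.1 z.2} * Nat.card M := by
  obtain ⟨σ, hσ⟩ := hφ.hasRightInverse
  have hM' : Finite M' := Finite.of_surjective φ hφ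
  have e1 : {z : Z × M // p z.1 (φ z.2)} ≃ {z : Z × M' // p z.1 z.2} × LinearMap.ker φ :=
    { toFun := fun z => (⟨(z.1.1, φ z.1.2), z.2⟩, ⟨z.1.2 - σ (φ z.1.2), by
        rw [LinearMap.mem_ker, map_sub, hσ, sub_self]⟩)
      invFun := fun z => ⟨(z.1.1.1, σ z.1.1.2 + z.2.1), by
        have h1 : φ (σ z.1.1.2 + z.2.1) = z.1.1.2 := by
          rw [map_add, hσ, LinearMap.mem_ker.1 z.2.2, add_zero]
        show p z.1.1.1 (φ (σ z.1.1.2 + z.2.1))
        rw [h1]
        exact z.1.2⟩
      left_inv := fun z => by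
        apply Subtype.ext
        apply Prod.ext
        · rfl
        · show σ (φ z.1.2) + (z.1.2 - σ (φ z.1.2)) = z.1.2
          abel
      right_inv := fun z => by
        have h1 : φ (σ z.1.1.2 + z.2.1) = z.1.1.2 := by
          rw [map_add, hσ, LinearMap.mem_ker.1 z.2.2, add_zero]
        apply Prod.ext
        · apply Subtype.ext
          apply Prod.ext
          · rfl
          · exact h1
        · apply Subtype.ext
          show σ z.1.1.2 + z.2.1 - σ (φ (σ z.1.1.2 + z.2.1)) = z.2.1
          rw [h1]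
          abel }
  have e2 : M ≃ M' × LinearMap.ker φ :=
    { toFun := fun z => (φ z, ⟨z - σ (φ z), by rw [LinearMap.mem_ker, map_sub, hσ, sub_self]⟩)
      invFun := fun z => σ z.1 + z.2.1
      left_inv := fun z => by
        show σ (φ z) + (z - σ (φ z)) = z
        abel
      right_inv := fun z => by
        have h1 : φ (σ z.1 + z.2.1) = z.1 := by
          rw [map_add, hσ, LinearMap.mem_ker.1 z.2.2, add_zero]
        apply Prod.ext
        · exact h1
        · apply Subtype.ext
          show σ z.1 + z.2.1 - σ (φ (σ z.1 + z.2.1)) = z.2.1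
          rw [h1]
          abel }
  rw [Nat.card_congr e1, Nat.card_congr e2, Nat.card_prod, Nat.card_prod]
  ring

end Pool.Agent.N684.BK
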