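import Pool.Agent.N684.BK.Alg3

/-!
Project BK: the graphs.
-/

set_option autoImplicit false

open MvPolynomial

namespace Pool.Agent.N684.BK

theorem Ind.congr {F : Type} [Field F] {N : ℕ} {ι κ : Type}
    {W : Submodule F (MvPolynomial (Fin N) F)} {A : ι → Fin N → F} (h : Ind W A)
    (f : κ → ι) (hf : Function.Injective f) : Ind W (fun i => A (f i)) := by
  intro v
  obtain ⟨w, hw⟩ := h (Function.extend f v 0)
  refine ⟨w, ?_⟩
  funext i
  have := congrFun hw (f i)
  simp only at this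
  rw [hf.extend_apply] at this
  exact this

/-- one point is independent -/
theorem ind_one {F : Type} [Field F] {N : ℕ} {ι : Type} [Unique ι]
    {W : Submodule F (MvPolynomial (Fin N) F)} (h1 : 1 ∈ W) (A : ι → Fin N → F) : Ind W A := by
  intro v
  refine ⟨v default • ⟨1, h1⟩, ?_⟩
  funext i
  show eval (A i) ((v default • (⟨1, h1⟩ : W) : W) : MvPolynomial (Fin N) F) = v i
  rw [Submodule.coe_smul, smul_eval, map_one, mul_one, Unique.eq_default i]

/-- two points are independent -/
theorem ind_two {F : Type} [Field F] {N : ℕ}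
    {W : Submodule F (MvPolynomial (Fin N) F)} (h1 : 1 ∈ W) (hX : ∀ a, X a ∈ W)
    {x y : Fin N → F} (hxy : x ≠ y) : Ind W (fun i : Fin 2 => if i = 0 then x else y) := by
  obtain ⟨a, ha⟩ := Function.ne_iff.1 hxy
  have hd : x a - y a ≠ 0 := sub_ne_zero.2 ha
  intro v
  refine ⟨((v 0 - v 1) / (x a - y a)) • ⟨X a, hX a⟩ +
    (v 1 - (v 0 - v 1) / (x a - y a) * y a) • ⟨1, h1⟩, ?_⟩
  funext i
  show eval (if i = 0 then x else y) ((((v 0 - v 1) / (x a - y a)) • (⟨X a, hX a⟩ : W) +
    (v 1 - (v 0 - v 1) / (x a - y a) * y a) • (⟨1, h1⟩ : W) : W) : MvPolynomial (Fin N) F) = v i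
  rw [Submodule.coe_add, Submodule.coe_smul, Submodule.coe_smul, map_add, smul_eval, smul_eval,
    map_one, mul_one, eval_X]
  fin_cases i
  · simp
    field_simp
    ring
  · simp

/-- number of varieties containing a circuit -/
theorem card_circ {F : Type} [Field F] [Fintype F] {N e k j : ℕ}
    {W H : Submodule F (MvPolynomial (Fin N) F)} [Module.Finite F W] [Module.Finite F H]
    (hWH : W ≤ H) {A : Fin j → Fin N → F} (hA : Circ W A) :
    Fintype.card F ^ ((j - 1) * (e + k)) *
      Nat.card {z : (Fin e → W) × (Fin k → H) // Set.range A ⊆ VV z} ≤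
      Nat.card ((Fin e → W) × (Fin k → H)) := by
  have fW := finite_sub W
  have fH := finite_sub H
  rcases Nat.eq_zero_or_pos j with rfl | hj
  · simp only [Nat.zero_sub, zero_mul, pow_zero, one_mul]
    exact Finite.card_subtype_le _
  let i₀ : Fin j := ⟨0, hj⟩
  have h1 := card_pair (e := e) (k := k) (hA.2.2 i₀) hWH
  have hc : Fintype.card {l : Fin j // l ≠ i₀} = j - 1 := by
    rw [Fintype.card_subtype_compl, Fintype.card_subtype_eq, Fintype.card_fin]
  rw [hc] at h1
  rw [← h1, mul_comm]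
  refine Nat.mul_le_mul_right _ ?_
  refine Nat.card_le_card_of_injective (fun z => ⟨z.1, fun i => z.2 ⟨i.1, rfl⟩⟩) ?_
  intro z z' hzz
  have h2 := congrArg Subtype.val hzz
  exact Subtype.ext h2

theorem card_lin {F : Type} [Field F] [Fintype F] {M : Type} [AddCommGroup M] [Module F M]
    [Finite M] (φ : M →ₗ[F] F) (hφ : Function.Surjective φ) :
    Nat.card {a : M // φ a = 0} * Fintype.card F = Nat.card M := by
  have h1 := card_fib (Z := Unit) φ hφ (fun _ x => x = 0)
  have e1 : {a : M // φ a = 0} ≃ {z : Unit × M // φ z.2 = 0} :=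
    { toFun := fun a => ⟨((), a.1), a.2⟩
      invFun := fun z => ⟨z.1.2, z.2⟩
      left_inv := fun z => rfl
      right_inv := fun z => rfl }
  have e2 : Unit ≃ {z : Unit × F // z.2 = 0} :=
    { toFun := fun a => ⟨((), 0), rfl⟩
      invFun := fun z => ()
      left_inv := fun z => rfl
      right_inv := fun z => Subtype.ext (Prod.ext rfl z.2.symm) }
  rw [Nat.card_congr e1, ← Nat.card_eq_fintype_card, h1, ← Nat.card_congr e2]
  simp

/-- the bilinear form as a linear map in the coefficients -/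
noncomputable def bilL {F : Type} [Field F] {N n : ℕ} (b : Fin n → MvPolynomial (Fin N) F)
    (x y : Fin N → F) : (Fin n → Fin n → F) →ₗ[F] F where
  toFun a := bil b a x y
  map_add' a a' := by
    unfold bil
    rw [← Finset.sum_add_distrib]
    refine Finset.sum_congr rfl fun l _ => ?_
    rw [← Finset.sum_add_distrib]
    refine Finset.sum_congr rfl fun m _ => ?_
    rw [Pi.add_apply, Pi.add_apply]
    ring
  map_smul' c a := by
    unfold bil
    rw [smul_eq_mul, Finset.mul_sum]
    refine Finset.sum_congr rfl fun l _ => ?_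
    rw [Finset.mul_sum]
    refine Finset.sum_congr rfl fun m _ => ?_
    rw [Pi.smul_apply, Pi.smul_apply, smul_eq_mul, RingHom.id_apply]
    ring

theorem bilL_surj {F : Type} [Field F] {N n : ℕ} {W : Submodule F (MvPolynomial (Fin N) F)}
    (h1 : 1 ∈ W) (b : Module.Basis (Fin n) F W) (x y : Fin N → F) :
    Function.Surjective (bilL (fun l => (b l : MvPolynomial (Fin N) F)) x y) := by
  intro c
  have hA : Ind W (fun _ : Fin 1 => x) := ind_one h1 _
  have hy : Ind W (fun _ : Fin 1 => y) := ind_one h1 _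
  obtain ⟨w, hw⟩ := hy (fun _ => c)
  obtain ⟨a, ha⟩ := gm_surj b hA (fun _ => w)
  refine ⟨a, ?_⟩
  show bil (fun l => (b l : MvPolynomial (Fin N) F)) a x y = c
  have h2 := eval_gm b (fun _ : Fin 1 => x) a 0 y
  rw [ha] at h2
  rw [← h2]
  exact congrFun hw 0

theorem ALG (hCOM : S_COM) (hCIRC : S_CIRC) (hFM : S_FM) (hCLEAN : S_CLEAN) (hKST : S_KST) :
    S_ALG := by
  classical
  intro s e k t hs he hk6 hk hT
  obtain ⟨C₁, hC₁⟩ := bad_card hCOM s e k (by omega) hk
  have hcirc : ∀ j : Fin (s + 1), ∃ C : ℕ,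
      ∀ (F : Type) [Field F] [Fintype F] (W : Submodule F (MvPolynomial (Fin (s + e + k)) F)),
      1 ∈ W → (∀ a, X a ∈ W) → (∀ a b, X a * X b ∈ W) →
      Nat.card {A : Fin (j : ℕ) → Fin (s + e + k) → F // Circ W A} * Fintype.card F ^ 2 ≤
        C * Fintype.card F ^ (((j : ℕ) - 1) * (e + k) + s) := fun j =>
    hCIRC s e k j hs he hk6 (by omega)
  choose C₂ hC₂ using hcirc
  obtain ⟨q₀, hq₀⟩ := hFM s (e + k) (max C₁ (∑ j, C₂ j)) hs
  refine ⟨q₀, ?_⟩
  intro p hp hpp
  have : Fact p.Prime := ⟨hpp⟩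
  set T := 2 ^ (s + e) * (s ^ 2 + s + 2) ^ (2 * k) with hTdef
  let F := ZMod p
  have hcF : Fintype.card F = p := ZMod.card p
  set D := s ^ 2 + s + 2 with hD
  let wt := wD s e k D
  have hwt : ∀ i, 1 ≤ wt i := by
    intro i
    show 1 ≤ wD s e k D i
    unfold wD
    split_ifs
    · omega
    · exact le_rfl
  have hwt2 : ∀ i, wt i ≤ D := by
    intro i
    show wD s e k D i ≤ D
    unfold wD
    split_ifs
    · exact le_rfl
    · omega
  let W := PW F wt (2 * D)
  let H := PW F wt (D ^ 2)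
  have hWf : Module.Finite F W := PW_finite _ hwt _
  have hHf : Module.Finite F H := PW_finite _ hwt _
  have fW : Finite W := finite_sub W
  have fH : Finite H := finite_sub H
  have hWH : W ≤ H := by
    refine PW_mono ?_
    rw [hD]
    nlinarith [Nat.zero_le (s ^ 2 + s)]
  have h1W : 1 ∈ W := one_mem_PW _ _
  have hXW : ∀ a, X a ∈ W := fun a => X_mem_PW _ _ a (by have := hwt2 a; omega)
  have hXXW : ∀ a b, X a * X b ∈ W := fun a b => XX_mem_PW _ _ a b (by
    have := hwt2 a
    have := hwt2 b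
    omega)
  let n := Module.finrank F W
  let b : Module.Basis (Fin n) F W := Module.finBasis F W
  let Pt := Fin (s + e + k) → F
  let Ω₁ := (Fin e → W) × (Fin k → H)
  let Ω₂ := Fin n → Fin n → F
  let Ci := (j : Fin (s + 1)) × {A : Fin (j : ℕ) → Fin (s + e + k) → F // Circ W A}
  have i1 : Fintype Ω₁ := Fintype.ofFinite Ω₁
  let i3 : Fintype Ci := inferInstanceAs (Fintype
    ((j : Fin (s + 1)) × {A : Fin (j : ℕ) → Fin (s + e + k) → F // Circ W A}))
  have key := hq₀ p hp Pt Ω₁ Ω₂ Ci (fun z => VV z)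
    (fun a x y => bil (fun l => (b l : MvPolynomial (Fin (s + e + k)) F)) a x y = 0)
    (fun c => Set.range c.2.1) (fun z a => Bad (s := s) T b z a) ?_ ?_ ?_ ?_ ?_ ?_ ?_
  · obtain ⟨z, a, hnb, V₀, hV₀, hcl, hV₀c, hE⟩ := key
    refine hE.trans (Nat.mul_le_mul_left 4 ?_)
    have hTt : T < t := hT
    have hst : s ≤ t := by
      have h1 : s < 2 ^ s := Nat.lt_two_pow_self
      have h2 : 2 ^ s ≤ 2 ^ (s + e) := Nat.pow_le_pow_right (by norm_num) (by omega)
      have h3 : 2 ^ (s + e) ≤ T := by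
        rw [hTdef]
        exact Nat.le_mul_of_pos_right _ (Nat.pow_pos (by omega))
      omega
    refine hKST s t (4 * p ^ s) Pt V₀
      (fun x y => bil (fun l => (b l : MvPolynomial (Fin (s + e + k)) F)) a x y = 0)
      (by omega) hst (Set.toFinite _) (by omega) ?_
    intro A hAinj hAV
    have hInd : Ind W A := by
      refine hCLEAN F (s + e + k) s W V₀ ?_ A hAinj hAV
      intro j hj A' hA' hr
      exact hcl ⟨⟨j, by omega⟩, ⟨A', hA'⟩⟩ hr
    have hnb' : ¬ (T < Set.ncard {y : Fin (s + e + k) → F | y ∈ VV z ∧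
        ∀ i, bil (fun l => (b l : MvPolynomial (Fin (s + e + k)) F)) a (A i) y = 0} ∨
        T < Set.ncard {y : Fin (s + e + k) → F | y ∈ VV z ∧
        ∀ i, bil (fun l => (b l : MvPolynomial (Fin (s + e + k)) F)) a y (A i) = 0}) :=
      fun h => hnb ⟨A, hInd, hAV.trans hV₀, h⟩
    push Not at hnb'
    refine ⟨lt_of_le_of_lt (le_trans ?_ hnb'.1) hTt, lt_of_le_of_lt (le_trans ?_ hnb'.2) hTt⟩
    · refine Set.ncard_le_ncard ?_ (Set.toFinite _)
      rintro y ⟨h1, h2⟩
      exact ⟨hV₀ h1, h2⟩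
    · refine Set.ncard_le_ncard ?_ (Set.toFinite _)
      rintro y ⟨h1, h2⟩
      exact ⟨hV₀ h1, h2⟩
  · show Fintype.card (Fin (s + e + k) → F) = _
    rw [Fintype.card_fun, Fintype.card_fin, hcF]
    congr 1
    ring
  · intro x
    have h1 := card_pair (e := e) (k := k) (ind_one (ι := Unit) h1W (fun _ => x)) hWH
    rw [Fintype.card_unit, one_mul, hcF, Nat.card_eq_fintype_card (α := Ω₁)] at h1
    rw [← h1]
    congr 1
    refine Nat.card_congr (Equiv.subtypeEquivRight fun z => ?_)
    exact ⟨fun h _ => h, fun h => h ()⟩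
  · intro x y hxy
    have h1 := card_pair (e := e) (k := k) (ind_two h1W hXW hxy) hWH
    rw [Fintype.card_fin, hcF, Nat.card_eq_fintype_card (α := Ω₁)] at h1
    rw [← h1]
    congr 1
    refine Nat.card_congr (Equiv.subtypeEquivRight fun z => ?_)
    constructor
    · rintro ⟨h2, h3⟩ i
      fin_cases i
      · exact h2
      · exact h3
    · intro h
      exact ⟨h 0, h 1⟩
  · intro x y
    have h1 := card_lin (bilL (fun l => (b l : MvPolynomial (Fin (s + e + k)) F)) x y)
      (bilL_surj h1W b x y)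
    rw [hcF, Nat.card_eq_fintype_card (α := Ω₂)] at h1
    exact h1
  · rintro ⟨j, A, hA⟩
    rcases Nat.eq_zero_or_pos (j : ℕ) with hj | hj
    · exfalso
      apply hA.2.1
      intro v
      refine ⟨0, ?_⟩
      funext i
      exact absurd i.2 (by omega)
    · exact ⟨A ⟨0, hj⟩, ⟨⟨0, hj⟩, rfl⟩⟩
  · have hq : 0 < Fintype.card F := Fintype.card_pos
    have h2 : ∀ j : Fin (s + 1), p ^ 2 * ∑ A : {A : Fin (j : ℕ) → Fin (s + e + k) → F // Circ W A},
        Nat.card {z : Ω₁ // Set.range A.1 ⊆ VV z} ≤ C₂ j * p ^ s * Fintype.card Ω₁ := by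
      intro j
      have h3 := hC₂ j F W h1W hXW hXXW
      have h4 : Fintype.card F ^ (((j : ℕ) - 1) * (e + k)) *
          ∑ A : {A : Fin (j : ℕ) → Fin (s + e + k) → F // Circ W A},
          Nat.card {z : Ω₁ // Set.range A.1 ⊆ VV z} ≤
          Nat.card {A : Fin (j : ℕ) → Fin (s + e + k) → F // Circ W A} * Nat.card Ω₁ := by
        rw [Finset.mul_sum]
        refine (Finset.sum_le_sum fun A _ => card_circ (e := e) (k := k) hWH A.2).trans ?_
        rw [Finset.sum_const, Finset.card_univ, smul_eq_mul, Nat.card_eq_fintype_card (α :=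
          {A : Fin (j : ℕ) → Fin (s + e + k) → F // Circ W A})]
      have hpos : 0 < Fintype.card F ^ (((j : ℕ) - 1) * (e + k)) := Nat.pow_pos hq
      refine Nat.le_of_mul_le_mul_left ?_ hpos
      rw [hcF] at h3 h4 ⊢
      rw [Nat.card_eq_fintype_card (α := Ω₁)] at h4
      calc _ = p ^ 2 * (p ^ (((j : ℕ) - 1) * (e + k)) *
            ∑ A : {A : Fin (j : ℕ) → Fin (s + e + k) → F // Circ W A},
            Nat.card {z : Ω₁ // Set.range A.1 ⊆ VV z}) := by ring
        _ ≤ p ^ 2 * (Nat.card {A : Fin (j : ℕ) → Fin (s + e + k) → F // Circ W A} *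
            Fintype.card Ω₁) := Nat.mul_le_mul_left _ h4
        _ = (Nat.card {A : Fin (j : ℕ) → Fin (s + e + k) → F // Circ W A} * p ^ 2) *
            Fintype.card Ω₁ := by ring
        _ ≤ (C₂ j * p ^ (((j : ℕ) - 1) * (e + k) + s)) * Fintype.card Ω₁ :=
            Nat.mul_le_mul_right _ h3
        _ = _ := by rw [pow_add]; ring
    have h5 : ∑ c : Ci, Nat.card {z : Ω₁ // Set.range c.2.1 ⊆ VV z} =
        ∑ j : Fin (s + 1), ∑ A : {A : Fin (j : ℕ) → Fin (s + e + k) → F // Circ W A},
          Nat.card {z : Ω₁ // Set.range A.1 ⊆ VV z} := by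
      exact Fintype.sum_sigma (ι := Fin (s + 1)) (α := fun j : Fin (s + 1) =>
        {A : Fin (j : ℕ) → Fin (s + e + k) → F // Circ W A})
        (fun c => Nat.card {z : Ω₁ // Set.range c.2.1 ⊆ VV z})
    rw [h5, Finset.mul_sum]
    calc _ ≤ ∑ j : Fin (s + 1), C₂ j * p ^ s * Fintype.card Ω₁ :=
          Finset.sum_le_sum fun j _ => h2 j
      _ = (∑ j : Fin (s + 1), C₂ j) * p ^ s * Fintype.card Ω₁ := by
          rw [Finset.sum_mul, Finset.sum_mul]
      _ ≤ _ := by
          gcongr
          exact le_max_right _ _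
  · have h1 := hC₁ F W H rfl rfl n b
    rw [hcF, Nat.card_eq_fintype_card (α := (Fin e → W) × (Fin k → H)),
      Nat.card_eq_fintype_card (α := Fin n → Fin n → F), ← mul_assoc] at h1
    refine h1.trans ?_
    gcongr
    exact le_max_left _ _

end Pool.Agent.N684.BK
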