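import Pool.Agent.N684.BK.Alg4
import Pool.Agent.N769.BK.DIM
import Pool.Agent.N769.BK.MULSUM
import Pool.Agent.N861.BK.BEZ
import Pool.Agent.N415.BK.TOP
import Pool.Agent.N738.BK.RAT
import Pool.Agent.N136.BK.RCI
import Pool.Agent.N591.BK.FE
import Pool.Agent.N678.BK.COM
import Pool.Agent.N392.BK.CIRC
import Pool.Agent.N459.BK.FM
import Pool.Agent.N615.BK.CLEAN
import Pool.Agent.N353.BK.FIN

/-!
Project BK: assembly, up to the lower bounds for Hilbert functions.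
-/

set_option autoImplicit false

namespace Pool.Agent.N684.BK

theorem top (hLOW : S_LOW) (hTR : S_TR) (hPOS : S_POS) (hQU : S_QU) : S_MAIN := by
  have hDIM := Pool.Agent.N769.BK.DIM.DIM
  have hMONO := Pool.Agent.N769.BK.DIM.MONO
  have hBEZ := Pool.Agent.N861.BK.BEZ.BEZ Pool.Agent.N769.BK.MULSUM.MUL
    Pool.Agent.N769.BK.MULSUM.SUM
  have hRCI := Pool.Agent.N136.BK.RCI.main hDIM hMONO hBEZ hLOW Pool.Agent.N738.BK.RAT.PT
  have hFE := Pool.Agent.N591.BK.FE.FE hDIM hMONO hBEZ hLOW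
  have hCOM := Pool.Agent.N678.BK.COM.main hMONO Pool.Agent.N415.BK.TOP.TOP
    Pool.Agent.N738.BK.RAT.RAT hTR hPOS hQU hRCI hFE Pool.Agent.N415.BK.TOP.FIB
  have hCIRC := Pool.Agent.N392.BK.CIRC.CIRC Pool.Agent.N392.BK.ROWS.ROWS
  have hALG := ALG hCOM hCIRC Pool.Agent.N459.BK.FM.FM Pool.Agent.N615.BK.CLEAN.CLEAN
    Pool.Agent.N615.BK.CLEAN.KST
  exact Pool.Agent.N353.BK.FIN.MAIN hALG Pool.Agent.N353.BK.FIN.FIN

end Pool.Agent.N684.BK
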